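import Mathlib

/-!
Random subgraphs of graphs with large average degree: a necklace of cliques `K_k` has average
degree `k`, but for `p < 1` (and a long necklace) its random subgraph has no cycle longer than `k`.
-/

namespace Pool.Agent.Results.MP_816dee_pr.Necklace

open Finset Filter Topology

/-- The probability that the random spanning subgraph `G_p` (each edge of `G` is kept
independently with probability `p`) has the property `Q`. -/
noncomputable def prob {V : Type*} [Fintype V] (G : SimpleGraph V) (p : ℝ)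
    (Q : SimpleGraph V → Prop) : ℝ := by
  classical
  exact ∑ S ∈ G.edgeFinset.powerset.filter
      (fun S : Finset (Sym2 V) => Q (SimpleGraph.fromEdgeSet (S : Set (Sym2 V)))),
    p ^ S.card * (1 - p) ^ (G.edgeFinset.card - S.card)

/-- `H` contains a cycle of length at least `l`. -/
def HasCycle {V : Type*} (l : ℕ) (H : SimpleGraph V) : Prop :=
  ∃ (v : V) (c : H.Walk v v), c.IsCycle ∧ l ≤ c.length

/-! ### Independence -/

section indep

variable {α ι : Type*} [DecidableEq α] [DecidableEq ι]

lemma prod_one_sub (I : Finset ι) (a : ι → ℝ) :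
    ∏ i ∈ I, (1 - a i) = ∑ J ∈ I.powerset, ∏ i ∈ J, (-a i) := by
  have h := Finset.prod_add (fun i => -a i) (fun _ => (1 : ℝ)) I
  simp only [Finset.prod_const_one, mul_one] at h
  rw [← h]
  exact Finset.prod_congr rfl fun i _ => by ring

/-- The probability that a random subset of `E` hits all the sets `F i`. -/
lemma sum_hit (E : Finset α) (I : Finset ι) (F : ι → Finset α) {m : ℕ}
    (hF : ∀ i ∈ I, F i ⊆ E) (hd : (I : Set ι).PairwiseDisjoint F)
    (hc : ∀ i ∈ I, (F i).card = m) (p : ℝ) :
    ∑ S ∈ E.powerset with (∀ i ∈ I, ¬ Disjoint S (F i)),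
      p ^ S.card * (1 - p) ^ (E.card - S.card) = (1 - (1 - p) ^ m) ^ I.card := by
  have hind : ∀ S : Finset α, (if (∀ i ∈ I, ¬ Disjoint S (F i)) then (1 : ℝ) else 0) =
      ∑ J ∈ I.powerset, (-1) ^ J.card * (if Disjoint S (J.biUnion F) then (1 : ℝ) else 0) := by
    intro S
    have h1 : (if (∀ i ∈ I, ¬ Disjoint S (F i)) then (1 : ℝ) else 0) =
        ∏ i ∈ I, (1 - (if Disjoint S (F i) then (1 : ℝ) else 0)) := by
      by_cases h : ∀ i ∈ I, ¬ Disjoint S (F i)
      · rw [if_pos h]
        symm
        apply Finset.prod_eq_one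
        intro i hi
        rw [if_neg (h i hi)]; ring
      · rw [if_neg h]
        push Not at h
        obtain ⟨i, hi, hdis⟩ := h
        symm
        apply Finset.prod_eq_zero hi
        rw [if_pos hdis]; ring
    rw [h1, prod_one_sub]
    refine Finset.sum_congr rfl fun J _ => ?_
    rw [Finset.prod_neg]
    congr 1
    by_cases h : Disjoint S (J.biUnion F)
    · rw [if_pos h]
      apply Finset.prod_eq_one
      intro i hi
      rw [if_pos ((Finset.disjoint_biUnion_right _ _ _).mp h i hi)]
    · rw [if_neg h]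
      rw [Finset.disjoint_biUnion_right] at h
      push Not at h
      obtain ⟨i, hi, hdis⟩ := h
      exact Finset.prod_eq_zero hi (by rw [if_neg hdis])
  have hJ : ∀ J ∈ I.powerset, ∑ S ∈ E.powerset,
      (p ^ S.card * (1 - p) ^ (E.card - S.card)) *
        (if Disjoint S (J.biUnion F) then (1 : ℝ) else 0) = ((1 - p) ^ m) ^ J.card := by
    intro J hJ
    rw [Finset.mem_powerset] at hJ
    set U := J.biUnion F with hU
    have hUE : U ⊆ E := Finset.biUnion_subset.mpr fun i hi => hF i (hJ hi)
    have hUc : U.card = J.card * m := by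
      rw [hU, Finset.card_biUnion]
      · rw [Finset.sum_congr rfl fun i hi => hc i (hJ hi), Finset.sum_const, smul_eq_mul]
      · intro i hi j hj hij
        exact hd (hJ hi) (hJ hj) hij
    have h1 : ∑ S ∈ E.powerset, (p ^ S.card * (1 - p) ^ (E.card - S.card)) *
        (if Disjoint S U then (1 : ℝ) else 0) =
        ∑ S ∈ (E \ U).powerset, p ^ S.card * (1 - p) ^ (E.card - S.card) := by
      simp only [mul_ite, mul_one, mul_zero]
      rw [← Finset.sum_filter]
      congr 1
      ext S
      simp only [Finset.mem_filter, Finset.mem_powerset, Finset.subset_sdiff]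
    rw [h1]
    have hEc : (E \ U).card + U.card = E.card := Finset.card_sdiff_add_card_eq_card hUE
    have h2 : ∑ S ∈ (E \ U).powerset, p ^ S.card * (1 - p) ^ (E.card - S.card) =
        (∑ S ∈ (E \ U).powerset, p ^ S.card * (1 - p) ^ ((E \ U).card - S.card)) *
          (1 - p) ^ U.card := by
      rw [Finset.sum_mul]
      refine Finset.sum_congr rfl fun S hS => ?_
      have hS' : S.card ≤ (E \ U).card := Finset.card_le_card (Finset.mem_powerset.mp hS)
      rw [mul_assoc, ← pow_add]
      congr 2
      omega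
    rw [h2, Finset.sum_pow_mul_eq_add_pow, hUc]
    have : p + (1 - p) = 1 := by ring
    rw [this, one_pow, one_mul, mul_comm, pow_mul]
  rw [Finset.sum_filter]
  have h3 : ∀ S ∈ E.powerset, (if (∀ i ∈ I, ¬ Disjoint S (F i)) then
      p ^ S.card * (1 - p) ^ (E.card - S.card) else 0) =
      ∑ J ∈ I.powerset, (-1) ^ J.card * ((p ^ S.card * (1 - p) ^ (E.card - S.card)) *
        (if Disjoint S (J.biUnion F) then (1 : ℝ) else 0)) := by
    intro S _
    have : (if (∀ i ∈ I, ¬ Disjoint S (F i)) then
      p ^ S.card * (1 - p) ^ (E.card - S.card) else 0) =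
      (p ^ S.card * (1 - p) ^ (E.card - S.card)) *
        (if (∀ i ∈ I, ¬ Disjoint S (F i)) then (1 : ℝ) else 0) := by
      split_ifs <;> ring
    rw [this, hind S, Finset.mul_sum]
    exact Finset.sum_congr rfl fun J _ => by ring
  rw [Finset.sum_congr rfl h3, Finset.sum_comm]
  have h4 : ∀ J ∈ I.powerset, ∑ S ∈ E.powerset, (-1) ^ J.card *
      ((p ^ S.card * (1 - p) ^ (E.card - S.card)) *
        (if Disjoint S (J.biUnion F) then (1 : ℝ) else 0)) =
      (-(1 - p) ^ m) ^ J.card * 1 ^ (I.card - J.card) := by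
    intro J hJ'
    rw [← Finset.mul_sum, hJ J hJ', one_pow, mul_one, neg_pow ((1 - p) ^ m)]
  rw [Finset.sum_congr rfl h4, Finset.sum_pow_mul_eq_add_pow]
  congr 1
  ring

end indep

/-! ### The necklace -/

/-- The `i`-th block (clique) of the necklace. -/
def block (N m : ℕ) [NeZero m] [NeZero N] (i : ZMod N) : Finset (ZMod N × Fin m) :=
  insert (i + 1, 0) (univ.image fun j => (i, j))

/-- The necklace of `N` cliques with `m + 1` vertices each. -/
def necklace (N m : ℕ) [NeZero m] [NeZero N] : SimpleGraph (ZMod N × Fin m) where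
  Adj x y := x ≠ y ∧ ∃ i, x ∈ block N m i ∧ y ∈ block N m i
  symm := ⟨fun _ _ ⟨h, i, h1, h2⟩ => ⟨h.symm, i, h2, h1⟩⟩
  loopless := ⟨fun _ h => h.1 rfl⟩

section necklace

variable {N m : ℕ} [NeZero m] [NeZero N]

lemma mem_block {i : ZMod N} {x : ZMod N × Fin m} :
    x ∈ block N m i ↔ x = (i + 1, 0) ∨ x.1 = i := by
  unfold block
  rw [Finset.mem_insert, Finset.mem_image]
  constructor
  · rintro (h | ⟨j, _, h⟩)
    · exact Or.inl h
    · right; rw [← h]
  · rintro (h | h)
    · exact Or.inl h
    · right; exact ⟨x.2, Finset.mem_univ _, by rw [← h]⟩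

lemma card_block_le (i : ZMod N) : (block N m i).card ≤ m + 1 := by
  unfold block
  refine (Finset.card_insert_le _ _).trans ?_
  have := Finset.card_image_le (s := (univ : Finset (Fin m))) (f := fun j => (i, j))
  simp at this ⊢
  omega

lemma one_ne_zero' (hN : 3 ≤ N) : (1 : ZMod N) ≠ 0 := by
  intro h
  have := (ZMod.natCast_eq_zero_iff 1 N).mp (by simpa using h)
  have := Nat.le_of_dvd (by norm_num) this
  omega

lemma two_ne_zero' (hN : 3 ≤ N) : (2 : ZMod N) ≠ 0 := by
  intro h
  have := (ZMod.natCast_eq_zero_iff 2 N).mp (by simpa using h)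
  have := Nat.le_of_dvd (by norm_num) this
  omega

lemma card_block (hN : 3 ≤ N) (i : ZMod N) : (block N m i).card = m + 1 := by
  unfold block
  rw [Finset.card_insert_of_notMem, Finset.card_image_of_injective]
  · simp
  · intro a b h; exact (Prod.mk.inj h).2
  · intro h
    obtain ⟨j, _, hj⟩ := Finset.mem_image.mp h
    have h1 := (Prod.mk.inj hj).1
    exact one_ne_zero' hN (by simpa using h1.symm)

/-- The edges from the shared vertex `(i, 0)` to the rest of the block `i`. -/
def star (N m : ℕ) [NeZero m] [NeZero N] (i : ZMod N) : Finset (Sym2 (ZMod N × Fin m)) :=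
  ((block N m i).erase (i, 0)).image fun y => s((i, 0), y)

lemma card_star (hN : 3 ≤ N) (i : ZMod N) : (star N m i).card = m := by
  unfold star
  rw [Finset.card_image_of_injOn, Finset.card_erase_of_mem, card_block hN]
  · rfl
  · exact mem_block.mpr (Or.inr rfl)
  · intro a _ b _ h
    simp only [Sym2.eq_iff] at h
    rcases h with ⟨_, h⟩ | ⟨h1, h2⟩
    · exact h
    · rw [← h2] at h1
      exact h1

lemma star_disjoint (hN : 3 ≤ N) {i j : ZMod N} (hij : i ≠ j) :
    Disjoint (star N m i) (star N m j) := by
  rw [Finset.disjoint_left]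
  intro e h1 h2
  unfold star at h1 h2
  obtain ⟨y, hy, rfl⟩ := Finset.mem_image.mp h1
  obtain ⟨z, hz, hyz⟩ := Finset.mem_image.mp h2
  simp only [Sym2.eq_iff] at hyz
  rcases hyz with ⟨h, _⟩ | ⟨h, h'⟩
  · exact hij (Prod.mk.inj h).1.symm
  · have hy' := mem_block.mp (Finset.mem_of_mem_erase hy)
    have hz' := mem_block.mp (Finset.mem_of_mem_erase hz)
    rw [← h] at hy'
    rw [h'] at hz'
    rcases hy' with hy' | hy'
    · rcases hz' with hz' | hz'
      · have e1 := (Prod.mk.inj hy').1
        have e2 := (Prod.mk.inj hz').1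
        apply two_ne_zero' hN
        rw [e1] at e2
        have : i + 2 = i := by
          rw [← one_add_one_eq_two, ← add_assoc]; exact e2.symm
        simpa using this
      · exact hij hz'
    · exact hij hy'.symm

lemma star_subset [DecidableRel (necklace N m).Adj] (i : ZMod N) :
    star N m i ⊆ (necklace N m).edgeFinset := by
  intro e he
  unfold star at he
  obtain ⟨y, hy, rfl⟩ := Finset.mem_image.mp he
  rw [SimpleGraph.mem_edgeFinset, SimpleGraph.mem_edgeSet]
  exact ⟨(Finset.ne_of_mem_erase hy).symm, i, mem_block.mpr (Or.inr rfl),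
    Finset.mem_of_mem_erase hy⟩

/-! ### Levels -/

/-- The level of a vertex, relative to the shared vertex `(i0, 0)`. -/
def level (i0 : ZMod N) (x : ZMod N × Fin m) : ℕ :=
  if x.2 = 0 then (if x.1 = i0 then 2 * N else 2 * (x.1 - i0).val) else 2 * (x.1 - i0).val + 1

lemma val_pos {i0 i : ZMod N} (h : i ≠ i0) : 0 < (i - i0).val := by
  rw [Nat.pos_iff_ne_zero]
  intro h0
  rw [ZMod.val_eq_zero] at h0
  exact h (sub_eq_zero.mp h0)

lemma level_block {i0 i : ZMod N} {x : ZMod N × Fin m} (hx : x ∈ block N m i)
    (hne : i = i0 → x ≠ (i0, 0)) :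
    2 * (i - i0).val ≤ level i0 x ∧ level i0 x ≤ 2 * (i - i0).val + 2 := by
  rcases mem_block.mp hx with h | h
  · -- `x = (i + 1, 0)`
    subst h
    unfold level
    simp only [if_true]
    have hlt := ZMod.val_lt (i - i0)
    by_cases h1 : i + 1 = i0
    · rw [if_pos h1]
      have h2 : (i - i0) = -1 := by rw [← h1]; ring
      have h3 : (i - i0).val + 1 = N := by
        rcases Nat.lt_or_ge ((i - i0).val + 1) N with h4 | h4
        · exfalso
          have h5 : (((i - i0).val + 1 : ℕ) : ZMod N) = 0 := by
            rw [Nat.cast_add, ZMod.natCast_zmod_val, h2]; simp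
          have h6 := (ZMod.natCast_eq_zero_iff _ N).mp h5
          have := Nat.le_of_dvd (by omega) h6
          omega
        · omega
      omega
    · rw [if_neg h1]
      have h2 : (i + 1 - i0) = (((i - i0).val + 1 : ℕ) : ZMod N) := by
        rw [Nat.cast_add, ZMod.natCast_zmod_val]; push_cast; ring
      have h3 : (i - i0).val + 1 < N := by
        rcases Nat.lt_or_ge ((i - i0).val + 1) N with h4 | h4
        · exact h4
        · exfalso
          have h5 : (i - i0).val + 1 = N := by omega
          rw [h5] at h2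
          simp at h2
          exact h1 (sub_eq_zero.mp h2)
      rw [h2, ZMod.val_natCast_of_lt h3]
      omega
  · subst h
    unfold level
    by_cases h1 : x.2 = 0
    · rw [if_pos h1]
      by_cases h2 : x.1 = i0
      · exfalso
        exact hne h2 (Prod.ext h2 h1)
      · rw [if_neg h2]; omega
    · rw [if_neg h1]; omega

lemma block_of_level {i0 : ZMod N} {x : ZMod N × Fin m} {t : ℕ}
    (h1 : 2 * t ≤ level i0 x) (h2 : level i0 x ≤ 2 * t + 2) : x ∈ block N m (i0 + t) := by
  have hcast : ∀ y : ZMod N, y = i0 + ((y - i0).val : ℕ) := by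
    intro y; rw [ZMod.natCast_zmod_val]; ring
  unfold level at h1 h2
  rw [mem_block]
  by_cases h3 : x.2 = 0
  · rw [if_pos h3] at h1 h2
    by_cases h4 : x.1 = i0
    · rw [if_pos h4] at h1 h2
      have h5 : t = N ∨ t + 1 = N := by omega
      rcases h5 with h5 | h5
      · right; rw [h4, h5]; simp
      · left
        refine Prod.ext ?_ h3
        rw [h4]
        have : (i0 + (t : ZMod N) + 1) = i0 + ((t + 1 : ℕ) : ZMod N) := by push_cast; ring
        rw [this, h5]; simp
    · rw [if_neg h4] at h1 h2
      have h5 : (x.1 - i0).val = t ∨ (x.1 - i0).val = t + 1 := by omega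
      rcases h5 with h5 | h5
      · right; conv_lhs => rw [hcast x.1, h5]
      · left
        refine Prod.ext ?_ h3
        conv_lhs => rw [hcast x.1, h5]
        push_cast; ring
  · rw [if_neg h3] at h1 h2
    have h5 : (x.1 - i0).val = t := by omega
    right
    conv_lhs => rw [hcast x.1, h5]

lemma level_even_unique {i0 : ZMod N} {x y : ZMod N × Fin m} {s : ℕ}
    (hx : level i0 x = 2 * s) (hy : level i0 y = 2 * s) : x = y := by
  unfold level at hx hy
  have hx2 : x.2 = 0 := by by_contra h; rw [if_neg h] at hx; omega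
  have hy2 : y.2 = 0 := by by_contra h; rw [if_neg h] at hy; omega
  rw [if_pos hx2] at hx
  rw [if_pos hy2] at hy
  refine Prod.ext ?_ (hx2.trans hy2.symm)
  have h1 := ZMod.val_lt (x.1 - i0)
  have h2 := ZMod.val_lt (y.1 - i0)
  by_cases h3 : x.1 = i0
  · rw [if_pos h3] at hx
    by_cases h4 : y.1 = i0
    · rw [h3, h4]
    · rw [if_neg h4] at hy; omega
  · rw [if_neg h3] at hx
    by_cases h4 : y.1 = i0
    · rw [if_pos h4] at hy; omega
    · rw [if_neg h4] at hy
      have : (x.1 - i0).val = (y.1 - i0).val := by omega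
      have := ZMod.val_injective N this
      exact sub_left_injective this

/-- A subgraph of the necklace without edges from `(i0, 0)` into the block `i0`: each edge lies
between consecutive even levels. -/
lemma level_adj {i0 : ZMod N} {H : SimpleGraph (ZMod N × Fin m)}
    (hH : H ≤ necklace N m) (hstar : ∀ y ∈ block N m i0, ¬ H.Adj (i0, 0) y)
    {x y : ZMod N × Fin m} (h : H.Adj x y) :
    ∃ t, 2 * t ≤ level i0 x ∧ level i0 x ≤ 2 * t + 2 ∧ 2 * t ≤ level i0 y ∧
      level i0 y ≤ 2 * t + 2 := by
  obtain ⟨_, i, hx, hy⟩ := hH h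
  have h1 := level_block (i0 := i0) hx (by
    rintro rfl rfl
    exact hstar y hy h)
  have h2 := level_block (i0 := i0) hy (by
    rintro rfl rfl
    exact hstar x hx h.symm)
  exact ⟨(i - i0).val, h1.1, h1.2, h2.1, h2.2⟩

/-- A walk from below level `2s` to above level `2s` visits level `2s`. -/
lemma exists_level {i0 : ZMod N} {H : SimpleGraph (ZMod N × Fin m)}
    (hH : H ≤ necklace N m) (hstar : ∀ y ∈ block N m i0, ¬ H.Adj (i0, 0) y)
    {u w : ZMod N × Fin m} (p : H.Walk u w) {s : ℕ} (hu : level i0 u < 2 * s)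
    (hw : 2 * s < level i0 w) : ∃ z ∈ p.support, level i0 z = 2 * s := by
  obtain ⟨d, hd, hd1, hd2⟩ := p.exists_boundary_dart {v | level i0 v < 2 * s} hu
    (by simp only [Set.mem_setOf_eq]; omega)
  refine ⟨d.snd, p.dart_snd_mem_support_of_mem_darts hd, ?_⟩
  obtain ⟨t, h1, h2, h3, h4⟩ := level_adj hH hstar d.adj
  simp only [Set.mem_setOf_eq, not_lt] at hd1 hd2
  omega

/-- All cycles are short. -/
lemma cycle_short {i0 : ZMod N} {H : SimpleGraph (ZMod N × Fin m)}
    (hH : H ≤ necklace N m) (hstar : ∀ y ∈ block N m i0, ¬ H.Adj (i0, 0) y)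
    {v : ZMod N × Fin m} {c : H.Walk v v} (hc : c.IsCycle) : c.length ≤ m + 1 := by
  classical
  -- a vertex of minimal level
  obtain ⟨u, hu, hmin⟩ := Finset.exists_min_image c.support.toFinset (level i0)
    ⟨v, by simp⟩
  simp only [List.mem_toFinset] at hu hmin
  set t := level i0 u / 2 with ht
  have hle : ∀ w ∈ c.support, level i0 w ≤ 2 * t + 2 := by
    intro w hw
    by_contra hcon
    have hw' : w ∈ (c.rotate u hu).support := (c.mem_support_rotate_iff u hu).mpr hw
    have hc' := hc.rotate hu
    set c' := c.rotate u hu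
    obtain ⟨z1, hz1, hl1⟩ := exists_level hH hstar (c'.takeUntil w hw') (s := t + 1)
      (by omega) (by omega)
    obtain ⟨z2, hz2, hl2⟩ := exists_level hH hstar (c'.dropUntil w hw').reverse (s := t + 1)
      (by omega) (by omega)
    have hz : z1 = z2 := level_even_unique hl1 hl2
    subst hz
    have hnd := hc'.support_nodup
    rw [← c'.take_spec hw', SimpleGraph.Walk.tail_support_append, List.nodup_append'] at hnd
    have hzu : z1 ≠ u := by rintro rfl; omega
    have hzw : z1 ≠ w := by rintro rfl; omega
    have h1 : z1 ∈ (c'.takeUntil w hw').support.tail := by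
      have := hz1
      rw [SimpleGraph.Walk.support_eq_cons, List.mem_cons] at this
      rcases this with h | h
      · exact absurd h hzu
      · exact h
    have h2 : z1 ∈ (c'.dropUntil w hw').support.tail := by
      have := hz2
      rw [SimpleGraph.Walk.support_reverse, List.mem_reverse,
        SimpleGraph.Walk.support_eq_cons, List.mem_cons] at this
      rcases this with h | h
      · exact absurd h hzw
      · exact h
    exact hnd.2.2 h1 h2
  have hsub : c.support.tail.toFinset ⊆ block N m (i0 + t) := by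
    intro w hw
    have hw' : w ∈ c.support := List.mem_of_mem_tail (List.mem_toFinset.mp hw)
    exact block_of_level (by have := hmin w hw'; omega) (hle w hw')
  have hlen : c.support.tail.length = c.length := by
    rw [List.length_tail, SimpleGraph.Walk.length_support]; rfl
  calc c.length = c.support.tail.length := hlen.symm
    _ = c.support.tail.toFinset.card := (List.toFinset_card_of_nodup hc.support_nodup).symm
    _ ≤ (block N m (i0 + t)).card := Finset.card_le_card hsub
    _ ≤ m + 1 := card_block_le _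

/-! ### Degrees -/

lemma degree_ge [DecidableRel (necklace N m).Adj] (hN : 3 ≤ N) (v : ZMod N × Fin m) :
    m + (if v.2 = 0 then m else 0) ≤ (necklace N m).degree v := by
  have h1 : (block N m v.1).erase v ⊆ (necklace N m).neighborFinset v := by
    intro y hy
    rw [SimpleGraph.mem_neighborFinset]
    exact ⟨(Finset.ne_of_mem_erase hy).symm, v.1, mem_block.mpr (Or.inr rfl),
      Finset.mem_of_mem_erase hy⟩
  have hc1 : ((block N m v.1).erase v).card = m := by
    rw [Finset.card_erase_of_mem (mem_block.mpr (Or.inr rfl)), card_block hN]; rfl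
  rw [← SimpleGraph.card_neighborFinset_eq_degree]
  split_ifs with h0
  · have hmem : v ∈ block N m (v.1 - 1) := by
      rw [mem_block]; left
      exact Prod.ext (by simp) h0
    have h2 : (block N m (v.1 - 1)).erase v ⊆ (necklace N m).neighborFinset v := by
      intro y hy
      rw [SimpleGraph.mem_neighborFinset]
      exact ⟨(Finset.ne_of_mem_erase hy).symm, v.1 - 1, hmem, Finset.mem_of_mem_erase hy⟩
    have hc2 : ((block N m (v.1 - 1)).erase v).card = m := by
      rw [Finset.card_erase_of_mem hmem, card_block hN]; rfl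
    have hdis : Disjoint ((block N m v.1).erase v) ((block N m (v.1 - 1)).erase v) := by
      rw [Finset.disjoint_left]
      intro y hy1 hy2
      have hne := Finset.ne_of_mem_erase hy1
      have e1 := mem_block.mp (Finset.mem_of_mem_erase hy1)
      have e2 := mem_block.mp (Finset.mem_of_mem_erase hy2)
      rw [sub_add_cancel] at e2
      rcases e2 with e2 | e2
      · exact hne (e2.trans (Prod.ext rfl h0.symm))
      · rcases e1 with e1 | e1
        · rw [e1] at e2
          simp only at e2
          apply two_ne_zero' hN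
          have : v.1 + 2 = v.1 := by
            have h3 : v.1 + 1 + 1 = v.1 - 1 + 1 := by rw [e2]
            rw [sub_add_cancel] at h3
            rw [← one_add_one_eq_two, ← add_assoc]; exact h3
          simpa using this
        · rw [e1] at e2
          apply one_ne_zero' hN
          have : v.1 - 1 = v.1 := e2.symm
          simpa using this
    calc m + m = ((block N m v.1).erase v ∪ (block N m (v.1 - 1)).erase v).card := by
          rw [Finset.card_union_of_disjoint hdis, hc1, hc2]
      _ ≤ _ := Finset.card_le_card (Finset.union_subset h1 h2)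
  · calc m + 0 = ((block N m v.1).erase v).card := by rw [hc1]; rfl
      _ ≤ _ := Finset.card_le_card h1

lemma edges_ge [DecidableRel (necklace N m).Adj] (hN : 3 ≤ N) :
    (m + 1) * (N * m) ≤ 2 * (necklace N m).edgeFinset.card := by
  rw [← SimpleGraph.sum_degrees_eq_twice_card_edges]
  calc (m + 1) * (N * m) = ∑ v : ZMod N × Fin m, (m + (if v.2 = 0 then m else 0)) := by
        rw [Finset.sum_add_distrib, Fintype.sum_prod_type (f := fun v : ZMod N × Fin m =>
          if v.2 = 0 then m else 0)]
        simp [ZMod.card]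
        ring
    _ ≤ _ := Finset.sum_le_sum fun v _ => degree_ge hN v

/-! ### The probability -/

lemma prob_le (hN : 3 ≤ N) {p : ℝ} (h0 : 0 ≤ p) (h1 : p ≤ 1) :
    prob (necklace N m) p (HasCycle (m + 2)) ≤ (1 - (1 - p) ^ m) ^ N := by
  classical
  have hq : 0 ≤ 1 - p := by linarith
  have h := sum_hit (necklace N m).edgeFinset (univ : Finset (ZMod N)) (star N m)
    (fun i _ => star_subset i) (fun i _ j _ hij => star_disjoint hN hij)
    (fun i _ => card_star hN i) p
  have hcard : (univ : Finset (ZMod N)).card = N := by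
    rw [Finset.card_univ, ZMod.card]
  rw [hcard] at h
  have key : prob (necklace N m) p (HasCycle (m + 2)) ≤
      ∑ S ∈ (necklace N m).edgeFinset.powerset.filter
        (fun S => ∀ i ∈ (univ : Finset (ZMod N)), ¬ Disjoint S (star N m i)),
      p ^ S.card * (1 - p) ^ ((necklace N m).edgeFinset.card - S.card) := by
    unfold prob
    refine Finset.sum_le_sum_of_subset_of_nonneg ?_ ?_
    · intro S hS
      rw [Finset.mem_filter] at hS ⊢
      refine ⟨hS.1, ?_⟩
      intro i _ hdis
      obtain ⟨v, c, hc, hl⟩ := hS.2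
      have hsub : SimpleGraph.fromEdgeSet (S : Set (Sym2 (ZMod N × Fin m))) ≤ necklace N m := by
        intro x y hxy
        rw [SimpleGraph.fromEdgeSet_adj] at hxy
        have := Finset.mem_powerset.mp hS.1 hxy.1
        rwa [SimpleGraph.mem_edgeFinset, SimpleGraph.mem_edgeSet] at this
      have hst : ∀ y ∈ block N m i,
          ¬ (SimpleGraph.fromEdgeSet (S : Set (Sym2 (ZMod N × Fin m)))).Adj (i, 0) y := by
        intro y hy hadj
        rw [SimpleGraph.fromEdgeSet_adj] at hadj
        refine Finset.disjoint_left.mp hdis hadj.1 ?_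
        exact Finset.mem_image.mpr ⟨y, Finset.mem_erase.mpr ⟨hadj.2.symm, hy⟩, rfl⟩
      have := cycle_short hsub hst hc
      omega
    · intro S _ _
      positivity
  refine le_trans key (le_of_eq ?_)
  rw [← h]
  refine Finset.sum_congr ?_ fun _ _ => rfl
  ext S
  simp only [Finset.mem_filter]

end necklace

/-- The average degree `2|E|/|V|`. -/
noncomputable def avgDegree {V : Type*} (G : SimpleGraph V) : ℝ :=
  2 * (Nat.card G.edgeSet : ℝ) / (Nat.card V : ℝ)

lemma avgDegree_necklace {N m : ℕ} [NeZero m] [NeZero N] (hN : 3 ≤ N) :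
    ((m + 1 : ℕ) : ℝ) ≤ avgDegree (necklace N m) := by
  classical
  have h := edges_ge (m := m) hN
  have hV : Nat.card (ZMod N × Fin m) = N * m := by
    rw [Nat.card_eq_fintype_card, Fintype.card_prod, ZMod.card, Fintype.card_fin]
  have hE : Nat.card (necklace N m).edgeSet = (necklace N m).edgeFinset.card := by
    rw [Nat.card_eq_fintype_card, SimpleGraph.edgeFinset_card]
  unfold avgDegree
  rw [hV, hE]
  have hm : 0 < m := Nat.pos_of_ne_zero (NeZero.ne m)
  have hpos : (0 : ℝ) < ((N * m : ℕ) : ℝ) := by
    have : 0 < N * m := Nat.mul_pos (by omega) hm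
    exact_mod_cast this
  rw [le_div_iff₀ hpos]
  exact_mod_cast h

/-- The assertion of Q2: for all `ω → ∞`, all graphs `G k` of average degree at least `k` and
all `p k ≥ (log k + log log k + ω k) / k`, the probability that `G_p` contains a cycle of length
at least `k + 1` tends to `1`. -/
def Q2 : Prop :=
  ∀ ω : ℕ → ℝ, Tendsto ω atTop atTop →
    ∀ (V : ℕ → Type) (_ : ∀ k, Fintype (V k)) (_ : ∀ k, Nonempty (V k))
      (G : ∀ k, SimpleGraph (V k)) (p : ℕ → ℝ),
      (∀ k : ℕ, (k : ℝ) ≤ avgDegree (G k)) → (∀ k, 0 ≤ p k ∧ p k ≤ 1) →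
      (∀ᶠ k : ℕ in atTop, (Real.log k + Real.log (Real.log k) + ω k) / k ≤ p k) →
      Tendsto (fun k => prob (G k) (p k) (HasCycle (k + 1))) atTop (𝓝 1)

/-- For all `p k < 1` there are graphs `G k` of average degree at least `k` such that the random
subgraph a.a.s. has no cycle of length at least `k + 1`. -/
theorem main (p : ℕ → ℝ) (hp : ∀ k, 0 ≤ p k ∧ p k < 1) :
    ∃ (V : ℕ → Type) (_ : ∀ k, Fintype (V k)) (_ : ∀ k, Nonempty (V k))
      (G : ∀ k, SimpleGraph (V k)),
      (∀ k : ℕ, (k : ℝ) ≤ avgDegree (G k)) ∧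
        Tendsto (fun k => prob (G k) (p k) (HasCycle (k + 1))) atTop (𝓝 0) := by
  have hex : ∀ k : ℕ, ∃ n : ℕ, (1 - (1 - p k) ^ (k - 3 + 2)) ^ (n + 3) ≤ 1 / ((k : ℝ) + 1) := by
    intro k
    obtain ⟨h0, h1⟩ := hp k
    have hq : 0 < (1 - p k) ^ (k - 3 + 2) := pow_pos (by linarith) _
    have hq1 : (1 - p k) ^ (k - 3 + 2) ≤ 1 := pow_le_one₀ (by linarith) (by linarith)
    obtain ⟨n, hn⟩ := exists_pow_lt_of_lt_one (show (0 : ℝ) < 1 / ((k : ℝ) + 1) by positivity)
      (show 1 - (1 - p k) ^ (k - 3 + 2) < 1 by linarith)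
    refine ⟨n, le_trans ?_ hn.le⟩
    exact pow_le_pow_of_le_one (by linarith) (by linarith) (by omega)
  choose n hn using hex
  refine ⟨fun k => ZMod (n k + 3) × Fin (k - 3 + 2), fun k => inferInstance,
    fun k => inferInstance, fun k => necklace (n k + 3) (k - 3 + 2), ?_, ?_⟩
  · intro k
    refine le_trans ?_ (avgDegree_necklace (by omega))
    have : k ≤ k - 3 + 2 + 1 := by omega
    exact_mod_cast this
  · refine squeeze_zero' (Eventually.of_forall fun k => ?_) ?_
      (tendsto_one_div_add_atTop_nhds_zero_nat (𝕜 := ℝ))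
    · unfold prob
      obtain ⟨h0, h1⟩ := hp k
      have hq : 0 ≤ 1 - p k := by linarith
      exact Finset.sum_nonneg fun S _ => by positivity
    · filter_upwards [eventually_ge_atTop 3] with k hk
      refine le_trans ?_ (hn k)
      have e : k + 1 = (k - 3 + 2) + 2 := by omega
      have h := prob_le (N := n k + 3) (m := k - 3 + 2) (by omega) (hp k).1 (hp k).2.le
      rw [← e] at h
      exact h

/-- **Q2 is false**, and it fails for every sequence `p k < 1`. -/
theorem result :
    ¬ Q2 ∧
    ∀ p : ℕ → ℝ, (∀ k, 0 ≤ p k ∧ p k < 1) →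
      ∃ (V : ℕ → Type) (_ : ∀ k, Fintype (V k)) (_ : ∀ k, Nonempty (V k))
        (G : ∀ k, SimpleGraph (V k)),
        (∀ k : ℕ, (k : ℝ) ≤ avgDegree (G k)) ∧
          Tendsto (fun k => prob (G k) (p k) (HasCycle (k + 1))) atTop (𝓝 0) := by
  refine ⟨?_, main⟩
  intro hQ
  obtain ⟨V, i1, i2, G, h1, h2⟩ := main (fun _ => 1 / 2) (fun _ => by norm_num)
  have hω : Tendsto (fun k : ℕ => Real.log k) atTop atTop :=
    Real.tendsto_log_atTop.comp tendsto_natCast_atTop_atTop
  have h3 := hQ (fun k => Real.log k) hω V i1 i2 G (fun _ => 1 / 2) h1 (fun _ => by norm_num) ?_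
  · exact zero_ne_one (tendsto_nhds_unique h2 h3)
  · have hlim : Tendsto (fun k : ℕ => Real.log k / (k : ℝ)) atTop (𝓝 0) := by
      have := Real.isLittleO_log_id_atTop.tendsto_div_nhds_zero
      exact this.comp tendsto_natCast_atTop_atTop
    have hev : ∀ᶠ k : ℕ in atTop, Real.log k / (k : ℝ) < 1 / 6 :=
      hlim.eventually (gt_mem_nhds (by norm_num))
    filter_upwards [hev, eventually_ge_atTop 3] with k hk hk3
    have hkpos : (0 : ℝ) < k := by exact_mod_cast (by omega : 0 < k)
    have hlog : 0 < Real.log k := Real.log_pos (by exact_mod_cast (by omega : 1 < k))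
    have hll : Real.log (Real.log k) ≤ Real.log k := by
      have := Real.log_le_sub_one_of_pos hlog
      linarith
    rw [div_lt_iff₀ hkpos] at hk
    rw [div_le_iff₀ hkpos]
    linarith

end Pool.Agent.Results.MP_816dee_pr.Necklace
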